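import Pool.Agent.N410.Forcing

/-!
# Edge count versus maximum forcing number

Every graph `G` on `2 n` vertices with a perfect matching has at least `n ^ 2 / (n - F(G))` edges.
-/

set_option autoImplicit false

namespace Pool.Agent.Results.MP_f5b231_co.EdgeBound

/-- `S` is a forcing set of the perfect matching `M` of `G`: `S` is a subset of `M`, and `M` is the
only perfect matching of `G` that contains `S`. -/
def IsForcingSet {V : Type} (G : SimpleGraph V) (M : G.Subgraph) (S : Set (Sym2 V)) : Prop :=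
  S ⊆ M.edgeSet ∧ ∀ M' : G.Subgraph, M'.IsPerfectMatching → S ⊆ M'.edgeSet → M' = M

/-- The forcing number `f(G, M)`: the minimum size of a forcing set of `M`. -/
noncomputable def forcingNumber {V : Type} (G : SimpleGraph V) (M : G.Subgraph) : ℕ :=
  sInf {k : ℕ | ∃ S : Set (Sym2 V), IsForcingSet G M S ∧ S.ncard = k}

/-- The maximum forcing number `F(G)`: the maximum of `f(G, M)` over the perfect matchings. -/
noncomputable def maxForcingNumber {V : Type} (G : SimpleGraph V) : ℕ :=
  sSup {k : ℕ | ∃ M : G.Subgraph, M.IsPerfectMatching ∧ forcingNumber G M = k}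

open Finset

/-- For every perfect matching `M` there is a forcing set with at most `n - n ^ 2 / e(G)` edges. -/
theorem forcing_le {V : Type} [Fintype V] (G : SimpleGraph V) (n : ℕ) (hn1 : 1 ≤ n)
    (hn : Fintype.card V = 2 * n) (M : G.Subgraph) (hM : M.IsPerfectMatching) :
    0 < G.edgeSet.ncard ∧
      (n : ℝ) ^ 2 / (G.edgeSet.ncard : ℝ) ≤ (n : ℝ) - (forcingNumber G M : ℝ) := by
  classical
  -- the partner function of a perfect matching
  have part : ∀ K : G.Subgraph, K.IsPerfectMatching →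
      ∃ μ : V → V, N410.Forcing.Partner G μ ∧ ∀ i j, K.Adj i j ↔ μ i = j := by
    intro K hK
    have h3 : ∀ i, ∃! j, K.Adj i j := fun i => hK.1 (hK.2 i)
    choose μ hμ hμ' using h3
    refine ⟨μ, ⟨fun i => K.adj_sub (hμ i), fun i => (hμ' _ _ (hμ i).symm).symm⟩,
      fun i j => ⟨fun h => (hμ' i j h).symm, fun h => ?_⟩⟩
    rw [← h]; exact hμ i
  obtain ⟨μ, hμ, hMμ⟩ := part M hM
  obtain ⟨A, T, hA, hTA, hAc, hforce, hcard⟩ := N410.Forcing.exists_forcing G hμ n hn hn1
  have hedge : G.edgeSet.ncard = G.edgeFinset.card := by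
    rw [← SimpleGraph.coe_edgeFinset, Set.ncard_coe_finset]
  have hpos : 0 < G.edgeFinset.card := by
    have hne : A.Nonempty := card_pos.1 (by omega)
    obtain ⟨a, -⟩ := hne
    refine card_pos.2 ⟨s(a, μ a), ?_⟩
    rw [SimpleGraph.mem_edgeFinset]
    exact hμ.adj a
  refine ⟨by omega, ?_⟩
  -- the forcing set
  let S : Set (Sym2 V) := (fun a => s(a, μ a)) '' (↑(A \ T) : Set V)
  have hS : IsForcingSet G M S := by
    refine ⟨?_, ?_⟩
    · rintro _ ⟨a, -, rfl⟩
      rw [SimpleGraph.Subgraph.mem_edgeSet, hMμ]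
    · intro M' hM' hsub
      obtain ⟨ν, hν, hMν⟩ := part M' hM'
      have h1 : ν = μ := by
        apply hforce ν hν
        intro b hb
        have h2 : s(b, μ b) ∈ M'.edgeSet := hsub ⟨b, hb, rfl⟩
        rw [SimpleGraph.Subgraph.mem_edgeSet, hMν] at h2
        exact h2
      apply SimpleGraph.Subgraph.ext
      · rw [SimpleGraph.Subgraph.isSpanning_iff.1 hM'.2,
          SimpleGraph.Subgraph.isSpanning_iff.1 hM.2]
      · funext i j
        rw [hMν, hMμ, h1]
  have hScard : S.ncard ≤ n - T.card := by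
    have h1 : S.ncard ≤ (↑(A \ T) : Set V).ncard := Set.ncard_image_le (Set.toFinite _)
    rw [Set.ncard_coe_finset, card_sdiff_of_subset hTA, hAc] at h1
    exact h1
  have hf : forcingNumber G M ≤ n - T.card := by
    have h9 : forcingNumber G M ≤ S.ncard := Nat.sInf_le ⟨S, hS, rfl⟩
    exact h9.trans hScard
  have hTn : T.card ≤ n := by rw [← hAc]; exact card_le_card hTA
  have h2 : (forcingNumber G M : ℝ) ≤ (n : ℝ) - (T.card : ℝ) := by
    rw [← Nat.cast_sub hTn]
    exact_mod_cast hf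
  rw [hedge]
  linarith

/-- Let `G` be a finite simple graph on `2 n` vertices, `n ≥ 1`, with a perfect matching. Then
`F(G) < n` and `G` has at least `n ^ 2 / (n - F(G))` edges. -/
theorem result (V : Type) [Finite V] (G : SimpleGraph V) (n : ℕ) (hn1 : 1 ≤ n)
    (hn : Nat.card V = 2 * n) (hG : ∃ M : G.Subgraph, M.IsPerfectMatching) :
    maxForcingNumber G < n ∧
      (n : ℝ) ^ 2 / ((n : ℝ) - (maxForcingNumber G : ℝ)) ≤ (G.edgeSet.ncard : ℝ) := by
  classical
  cases nonempty_fintype V
  rw [Nat.card_eq_fintype_card] at hn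
  have hle : ∀ M : G.Subgraph, M.IsPerfectMatching → forcingNumber G M < n := by
    intro M hM
    obtain ⟨h1, h2⟩ := forcing_le G n hn1 hn M hM
    have h3 : (0 : ℝ) < (n : ℝ) ^ 2 / (G.edgeSet.ncard : ℝ) := by positivity
    have h4 : (forcingNumber G M : ℝ) < n := by linarith
    exact_mod_cast h4
  have hmem : maxForcingNumber G ∈
      {k : ℕ | ∃ M : G.Subgraph, M.IsPerfectMatching ∧ forcingNumber G M = k} := by
    apply Nat.sSup_mem
    · obtain ⟨M, hM⟩ := hG
      exact ⟨_, M, hM, rfl⟩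
    · refine ⟨n, ?_⟩
      rintro k ⟨M, hM, rfl⟩
      exact (hle M hM).le
  obtain ⟨M, hM, hMk⟩ := hmem
  obtain ⟨h1, h2⟩ := forcing_le G n hn1 hn M hM
  rw [hMk] at h2
  have h3 := hle M hM
  rw [hMk] at h3
  refine ⟨h3, ?_⟩
  have h4 : (0 : ℝ) < (n : ℝ) - (maxForcingNumber G : ℝ) := by
    have : (maxForcingNumber G : ℝ) < n := by exact_mod_cast h3
    linarith
  have h5 : (0 : ℝ) < (G.edgeSet.ncard : ℝ) := by exact_mod_cast h1
  rw [div_le_iff₀ h4]
  rw [div_le_iff₀ h5] at h2
  linarith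

end Pool.Agent.Results.MP_f5b231_co.EdgeBound
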